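import Pool.Agent.helper21.BEY.SpecB

set_option autoImplicit false

open Complex MeasureTheory

namespace Pool.Agent.BEY

open Pool.Agent.helper84.DM Pool.Agent.helper78.ED Pool.Agent.DH Pool.Agent.LDH

/-- the mollifier is at most its length -/
theorem DTS_mol (X : ℕ) (ρ : ℂ) (h : 0 ≤ ρ.re) :
    ‖∑ m ∈ Finset.Icc 1 X, ((ArithmeticFunction.moebius m : ℤ) : ℂ) * (m : ℂ) ^ (-ρ)‖ ≤ X := by
  refine (norm_sum_le _ _).trans ?_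
  have h1 : ∀ m ∈ Finset.Icc 1 X,
      ‖((ArithmeticFunction.moebius m : ℤ) : ℂ) * (m : ℂ) ^ (-ρ)‖ ≤ 1 := by
    intro m hm
    have hm1 : 1 ≤ m := (Finset.mem_Icc.1 hm).1
    rw [norm_mul]
    have e1 : ‖((ArithmeticFunction.moebius m : ℤ) : ℂ)‖ ≤ 1 := by
      rw [Complex.norm_intCast]
      have := ArithmeticFunction.abs_moebius_le_one (n := m)
      exact_mod_cast this
    have e2 : ‖(m : ℂ) ^ (-ρ)‖ ≤ 1 := by
      rw [Complex.norm_natCast_cpow_of_pos (by omega)]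
      have : (1 : ℝ) ≤ m := by exact_mod_cast hm1
      rw [Complex.neg_re]
      exact Real.rpow_le_one_of_one_le_of_nonpos this (by linarith)
    calc ‖((ArithmeticFunction.moebius m : ℤ) : ℂ)‖ * ‖(m : ℂ) ^ (-ρ)‖ ≤ 1 * 1 :=
          mul_le_mul e1 e2 (norm_nonneg _) zero_le_one
      _ = 1 := one_mul 1
  calc ∑ m ∈ Finset.Icc 1 X, ‖((ArithmeticFunction.moebius m : ℤ) : ℂ) * (m : ℂ) ^ (-ρ)‖
      ≤ ∑ _m ∈ Finset.Icc 1 X, (1 : ℝ) := Finset.sum_le_sum h1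
    _ = X := by simp

theorem DTS (hEMS : EMS_stmt) (hMOS : MOS_stmt) (hTEL : TEL_stmt) : DTS_stmt := by
  obtain ⟨C, hC, hE⟩ := hEMS
  intro δ hδ hδ8
  refine ⟨max 2 ((2 * C) ^ 4), ?_⟩
  intro T hT D Y J hD hDT hDY hJ1 hJ2 ρ hρ hre him1 him2
  have hT2 : 2 ≤ T := (le_max_left _ _).trans hT
  have hT1 : 1 ≤ T := by linarith
  have hT0 : 0 < T := by linarith
  have hTC : (2 * C) ^ 4 ≤ T := (le_max_right _ _).trans hT
  have hre1 : ρ.re < 1 := by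
    by_contra hcon
    push Not at hcon
    exact riemannZeta_ne_zero_of_one_le_re hcon hρ
  have hD1 : (1 : ℝ) ≤ D := by exact_mod_cast hD
  have hY : 0 < Y := by linarith
  have hP := hE T ((4 / 3) ^ J * Y) ρ hT2 hJ1 hJ2 hρ hre hre1.le him1 him2
  have hsmall : T ^ δ * (C * T ^ (-(1 / 2) : ℝ)) ≤ 1 / 2 := by
    have c1 : T ^ δ * T ^ (-(1 / 2) : ℝ) ≤ T ^ (-(1 / 4) : ℝ) := by
      rw [← Real.rpow_add hT0]
      exact Real.rpow_le_rpow_of_exponent_le hT1 (by linarith)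
    have c2 : 2 * C * T ^ (-(1 / 4) : ℝ) ≤ 1 := by
      have : 2 * C ≤ T ^ (1 / 4 : ℝ) := by
        calc 2 * C = ((2 * C) ^ 4) ^ (1 / 4 : ℝ) := by
              rw [← Real.rpow_natCast (2 * C) 4, ← Real.rpow_mul (by positivity)]
              norm_num
          _ ≤ T ^ (1 / 4 : ℝ) := Real.rpow_le_rpow (by positivity) hTC (by norm_num)
      calc 2 * C * T ^ (-(1 / 4) : ℝ) ≤ T ^ (1 / 4 : ℝ) * T ^ (-(1 / 4) : ℝ) :=
            mul_le_mul_of_nonneg_right this (by positivity)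
        _ = 1 := by rw [← Real.rpow_add hT0]; norm_num
    nlinarith [mul_le_mul_of_nonneg_left c1 hC.le]
  obtain ⟨-, hid⟩ := hMOS D Y hD hDY
  have hid := hid ρ
  have htel := hTEL Y J ρ hY
  set M : ℂ := ∑ m ∈ Finset.Icc 1 D, ((ArithmeticFunction.moebius m : ℤ) : ℂ) * (m : ℂ) ^ (-ρ)
    with hM
  set S : ℂ := ∑ k ∈ Finset.Ioc D (D * ⌊2 * Y⌋₊), cS D Y k * (k : ℂ) ^ (-ρ) with hS
  have hMb : ‖M‖ ≤ T ^ δ := (DTS_mol D ρ (by linarith)).trans hDT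
  have hPY : ‖Ph Y ρ‖ ≤ C * T ^ (-(1 / 2) : ℝ) +
      ∑ i ∈ Finset.range J, ‖Ps ((4 / 3) ^ i * Y) ρ‖ := by
    have e1 : Ph Y ρ = Ph ((4 / 3) ^ J * Y) ρ - ∑ i ∈ Finset.range J, Ps ((4 / 3) ^ i * Y) ρ := by
      rw [htel]; ring
    rw [e1]
    refine (norm_sub_le _ _).trans ?_
    have e2 := norm_sum_le (Finset.range J) (fun i => Ps ((4 / 3) ^ i * Y) ρ)
    linarith
  have hone : (1 : ℝ) ≤ ‖M‖ * ‖Ph Y ρ‖ + ‖S‖ := by
    have h1 : (1 : ℂ) = M * Ph Y ρ - S := by rw [hid]; ring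
    calc (1 : ℝ) = ‖(1 : ℂ)‖ := by simp
      _ = ‖M * Ph Y ρ - S‖ := by rw [← h1]
      _ ≤ ‖M * Ph Y ρ‖ + ‖S‖ := norm_sub_le _ _
      _ = ‖M‖ * ‖Ph Y ρ‖ + ‖S‖ := by rw [norm_mul]
  have hfin : ‖M‖ * ‖Ph Y ρ‖ ≤ T ^ δ * (C * T ^ (-(1 / 2) : ℝ) +
      ∑ i ∈ Finset.range J, ‖Ps ((4 / 3) ^ i * Y) ρ‖) :=
    mul_le_mul hMb hPY (norm_nonneg _) (by positivity)
  have h3 : T ^ δ * (C * T ^ (-(1 / 2) : ℝ) + ∑ i ∈ Finset.range J, ‖Ps ((4 / 3) ^ i * Y) ρ‖) =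
      T ^ δ * (C * T ^ (-(1 / 2) : ℝ)) +
        T ^ δ * ∑ i ∈ Finset.range J, ‖Ps ((4 / 3) ^ i * Y) ρ‖ := by ring
  linarith

end Pool.Agent.BEY
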