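import Pool.Agent.helper21.BEY.SpecB

set_option autoImplicit false

open Complex MeasureTheory

namespace Pool.Agent.BEY

open Pool.Agent.helper84.DM Pool.Agent.helper78.ED Pool.Agent.DH Pool.Agent.LDH

lemma MOS_norm (hPHF : PHF_stmt) (D : ℕ) (Y : ℝ) (k : ℕ) : ‖cS D Y k‖ ≤ d k := by
  obtain ⟨-, -, h01, -⟩ := hPHF
  unfold cS d
  refine (norm_sum_le _ _).trans ?_
  refine (Finset.sum_le_card_nsmul _ _ (1 : ℝ) ?_).trans (le_of_eq ?_)
  · intro m _
    split_ifs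
    · have h := ArithmeticFunction.abs_moebius_le_one (n := m)
      rw [← Int.cast_le (R := ℝ)] at h
      rw [norm_mul, Complex.norm_intCast, Complex.norm_real, Real.norm_eq_abs]
      push_cast at h
      have h1 := h01 (((k / m : ℕ) : ℝ) / Y)
      have h2 : |phi (((k / m : ℕ) : ℝ) / Y)| ≤ 1 := by
        rw [abs_of_nonneg h1.1]; exact h1.2
      calc |((ArithmeticFunction.moebius m : ℤ) : ℝ)| * |phi (((k / m : ℕ) : ℝ) / Y)| ≤ 1 * 1 :=
            mul_le_mul h h2 (abs_nonneg _) zero_le_one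
        _ = 1 := one_mul 1
    · rw [norm_zero]; exact zero_le_one
  · rw [nsmul_eq_mul, mul_one]

lemma MOS_one (hPHF : PHF_stmt) {D : ℕ} {Y : ℝ} (hD : 1 ≤ D) (hDY : (D : ℝ) ≤ Y) : cS D Y 1 = 1 := by
  obtain ⟨h1, -⟩ := hPHF
  have hD1 : (1 : ℝ) ≤ D := by exact_mod_cast hD
  have hY : 0 < Y := by linarith
  unfold cS
  rw [Nat.divisors_one, Finset.sum_singleton, if_pos hD]
  have h2 : phi (((1 / 1 : ℕ) : ℝ) / Y) = 1 := by
    apply h1
    rw [div_le_one hY]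
    push_cast
    linarith
  rw [h2]
  simp

lemma MOS_zero (hPHF : PHF_stmt) {D k : ℕ} {Y : ℝ} (hDY : (D : ℝ) ≤ Y) (hk : 1 < k) (hkD : k ≤ D) :
    cS D Y k = 0 := by
  obtain ⟨hp1, -⟩ := hPHF
  have hD1 : (1 : ℝ) ≤ D := by exact_mod_cast (by omega : 1 ≤ D)
  have hY : 0 < Y := by linarith
  unfold cS
  have h1 : ∀ m ∈ k.divisors, (if m ≤ D then ((ArithmeticFunction.moebius m : ℤ) : ℂ) *
      ((phi (((k / m : ℕ) : ℝ) / Y) : ℝ) : ℂ) else 0) =
      ((ArithmeticFunction.moebius m : ℤ) : ℂ) := by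
    intro m hm
    have h2 := Nat.divisor_le hm
    have h3 : k / m ≤ k := Nat.div_le_self _ _
    have h4 : ((k / m : ℕ) : ℝ) ≤ D := by exact_mod_cast h3.trans hkD
    have h5 : phi (((k / m : ℕ) : ℝ) / Y) = 1 := by
      apply hp1
      rw [div_le_one hY]
      linarith
    rw [if_pos (h2.trans hkD), h5]
    simp
  rw [Finset.sum_congr rfl h1, ← Int.cast_sum]
  have h2 : ∑ m ∈ k.divisors, ArithmeticFunction.moebius m = 0 := by
    have h3 := ArithmeticFunction.coe_mul_zeta_apply (f := ArithmeticFunction.moebius) (x := k)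
    rw [← h3, ArithmeticFunction.moebius_mul_coe_zeta, ArithmeticFunction.one_apply_ne (by omega)]
  rw [h2, Int.cast_zero]

theorem MOS (hPHF : PHF_stmt) : MOS_stmt := by
  intro D Y hD hDY
  refine ⟨fun k => MOS_norm hPHF D Y k, fun s => ?_⟩
  have hD1 : (1 : ℝ) ≤ D := by exact_mod_cast hD
  have hY : 0 < Y := by linarith
  have hL : 1 ≤ ⌊2 * Y⌋₊ := Nat.le_floor (by push_cast; linarith)
  have hDDL : D ≤ D * ⌊2 * Y⌋₊ := Nat.le_mul_of_pos_right D (by omega)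
  have hphi0 : ∀ n : ℕ, ¬ n ≤ ⌊2 * Y⌋₊ → phi ((n : ℝ) / Y) = 0 := by
    intro n hn
    obtain ⟨-, h2, -⟩ := hPHF
    apply h2
    have h3 : 2 * Y < n := (Nat.floor_lt (by linarith)).1 (by omega)
    rw [le_div_iff₀ hY]
    linarith
  have key : (∑ m ∈ Finset.Icc 1 D, ((ArithmeticFunction.moebius m : ℤ) : ℂ) * (m : ℂ) ^ (-s)) *
      Ph Y s = ∑ k ∈ Finset.Icc 1 (D * ⌊2 * Y⌋₊), cS D Y k * (k : ℂ) ^ (-s) := by
    unfold Ph
    rw [Finset.sum_mul_sum, ← Finset.sum_product']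
    have h1 : ∀ k ∈ Finset.Icc 1 (D * ⌊2 * Y⌋₊), cS D Y k * (k : ℂ) ^ (-s) =
        ∑ m ∈ k.divisors.filter (fun m => m ≤ D ∧ k / m ≤ ⌊2 * Y⌋₊),
          ((ArithmeticFunction.moebius m : ℤ) : ℂ) * ((phi (((k / m : ℕ) : ℝ) / Y) : ℝ) : ℂ) *
            (k : ℂ) ^ (-s) := by
      intro k _
      unfold cS
      rw [Finset.sum_filter, Finset.sum_mul]
      refine Finset.sum_congr rfl fun m _ => ?_
      by_cases h2 : m ≤ D
      · by_cases h3 : k / m ≤ ⌊2 * Y⌋₊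
        · rw [if_pos h2, if_pos ⟨h2, h3⟩]
        · rw [if_pos h2, if_neg (fun h => h3 h.2), hphi0 _ h3]
          simp
      · rw [if_neg h2, if_neg (fun h => h2 h.1), zero_mul]
    rw [Finset.sum_congr rfl h1, Finset.sum_sigma']
    refine Finset.sum_nbij' (fun p => ⟨p.1 * p.2, p.1⟩) (fun q => (q.2, q.1 / q.2)) ?_ ?_ ?_ ?_ ?_
    · rintro ⟨m, n⟩ h
      simp only [Finset.mem_product, Finset.mem_Icc] at h
      obtain ⟨⟨h1, h2⟩, h3, h4⟩ := h
      simp only [Finset.mem_sigma, Finset.mem_Icc, Finset.mem_filter, Nat.mem_divisors]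
      have hm0 : 0 < m := h1
      refine ⟨⟨Nat.mul_pos hm0 h3, Nat.mul_le_mul h2 h4⟩, ⟨Dvd.intro _ rfl, ?_⟩, h2, ?_⟩
      · exact (Nat.mul_pos hm0 h3).ne'
      · rw [Nat.mul_div_cancel_left _ hm0]; exact h4
    · rintro ⟨k, m⟩ h
      simp only [Finset.mem_sigma, Finset.mem_Icc, Finset.mem_filter, Nat.mem_divisors] at h
      obtain ⟨⟨h1, h2⟩, ⟨h3, h4⟩, h5, h6⟩ := h
      simp only [Finset.mem_product, Finset.mem_Icc]
      have hm0 : 0 < m := Nat.pos_of_dvd_of_pos h3 h1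
      exact ⟨⟨hm0, h5⟩, Nat.div_pos (Nat.le_of_dvd h1 h3) hm0, h6⟩
    · rintro ⟨m, n⟩ h
      simp only [Finset.mem_product, Finset.mem_Icc] at h
      have hm0 : 0 < m := h.1.1
      simp only [Nat.mul_div_cancel_left _ hm0]
    · rintro ⟨k, m⟩ h
      simp only [Finset.mem_sigma, Finset.mem_Icc, Finset.mem_filter, Nat.mem_divisors] at h
      simp only [Nat.mul_div_cancel' h.2.1.1]
    · rintro ⟨m, n⟩ h
      simp only [Finset.mem_product, Finset.mem_Icc] at h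
      have hm0 : 0 < m := h.1.1
      simp only [Nat.mul_div_cancel_left _ hm0]
      rw [Nat.cast_mul, Complex.natCast_mul_natCast_cpow]
      ring
  rw [key]
  have h2 : Finset.Icc 1 (D * ⌊2 * Y⌋₊) = insert 1 (Finset.Ioc 1 D ∪ Finset.Ioc D (D * ⌊2 * Y⌋₊)) := by
    ext k
    simp only [Finset.mem_Icc, Finset.mem_insert, Finset.mem_union, Finset.mem_Ioc]
    omega
  rw [h2, Finset.sum_insert (by simp; omega), Finset.sum_union]
  · have h3 : ∑ k ∈ Finset.Ioc 1 D, cS D Y k * (k : ℂ) ^ (-s) = 0 := by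
      refine Finset.sum_eq_zero fun k hk => ?_
      rw [Finset.mem_Ioc] at hk
      rw [MOS_zero hPHF hDY hk.1 hk.2, zero_mul]
    rw [h3, zero_add, MOS_one hPHF hD hDY, Nat.cast_one, Complex.one_cpow, mul_one]
  · rw [Finset.disjoint_left]
    intro k h3 h4
    rw [Finset.mem_Ioc] at h3 h4
    omega

end Pool.Agent.BEY
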